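import Pool.Agent.H608R4.KM.Stm

set_option autoImplicit false

namespace Pool.Agent.TH106.KM

open Finset Pool.Agent.H608R4.KM

theorem z4 : ∀ κ : ZMod 4, κ = 0 ∨ κ = 1 ∨ κ = 2 ∨ κ = 3 := by decide

theorem ind_t {p : Prop} (h : p) : ind p = 1 := by unfold ind; simp [h]
theorem ind_f {p : Prop} (h : ¬ p) : ind p = 0 := by unfold ind; simp [h]

theorem small {c s : ℝ} (h : c ^ 2 + s ^ 2 = 1) (hc : 0 < c) : |c - 1| ≤ |s| ∧ c ≤ 1 := by
  have h1 : c ≤ 1 := by nlinarith [sq_nonneg s]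
  have h2 : |s| ≤ 1 := by
    rw [abs_le]; constructor <;> nlinarith
  refine ⟨?_, h1⟩
  rw [abs_sub_comm, abs_of_nonneg (by linarith)]
  have h3 : s ^ 2 = |s| ^ 2 := (sq_abs s).symm
  have h4 : 0 ≤ |s| := abs_nonneg s
  nlinarith

theorem point {n : ℕ} {x y : Fin n → ℝ} {k : Fin n → ZMod 4} {c s : Fin n → ℝ}
    (h : Cl n x y k c s) (i : Fin n) :
    |x i - (ind (k i = 0) - ind (k i = 2))| ≤ |s i| ∧
    |y i - (ind (k i = 1) - ind (k i = 3))| ≤ |s i| ∧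
    |(x i ^ 2 - y i ^ 2) - (ind (k i = 0) + ind (k i = 2) - ind (k i = 1) - ind (k i = 3))|
      ≤ 2 * s i ^ 2 ∧
    ind (k i = 0) + ind (k i = 1) + ind (k i = 2) + ind (k i = 3) = 1 := by
  have hcs := h.cs i
  obtain ⟨h1, h2⟩ := small hcs (h.c0 i)
  have n01 : (0 : ZMod 4) ≠ 1 := by decide
  have n02 : (0 : ZMod 4) ≠ 2 := by decide
  have n03 : (0 : ZMod 4) ≠ 3 := by decide
  have n12 : (1 : ZMod 4) ≠ 2 := by decide
  have n13 : (1 : ZMod 4) ≠ 3 := by decide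
  have n23 : (2 : ZMod 4) ≠ 3 := by decide
  have hsq : |2 * s i ^ 2| = 2 * s i ^ 2 := abs_of_nonneg (by positivity)
  rcases z4 (k i) with hk | hk | hk | hk
  · obtain ⟨e1, e2⟩ := h.r0 i hk
    rw [hk, ind_t rfl, ind_f n01, ind_f n02, ind_f n03, e1, e2]
    refine ⟨by simpa using h1, by simp, ?_, by norm_num⟩
    have : c i ^ 2 - s i ^ 2 - (1 + 0 - 0 - 0) = -(2 * s i ^ 2) := by linarith
    rw [this, abs_neg, hsq]
  · obtain ⟨e1, e2⟩ := h.r1 i hk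
    rw [hk, ind_f n01.symm, ind_t rfl, ind_f n12, ind_f n13, e1, e2]
    refine ⟨by simp, by simpa using h1, ?_, by norm_num⟩
    have : (-s i) ^ 2 - c i ^ 2 - (0 + 0 - 1 - 0) = 2 * s i ^ 2 := by nlinarith
    rw [this, hsq]
  · obtain ⟨e1, e2⟩ := h.r2 i hk
    rw [hk, ind_f n02.symm, ind_f n12.symm, ind_t rfl, ind_f n23, e1, e2]
    refine ⟨?_, by simp, ?_, by norm_num⟩
    · have : -c i - (0 - 1) = -(c i - 1) := by ring
      rw [this, abs_neg]; exact h1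
    · have : (-c i) ^ 2 - (-s i) ^ 2 - (0 + 1 - 0 - 0) = -(2 * s i ^ 2) := by nlinarith
      rw [this, abs_neg, hsq]
  · obtain ⟨e1, e2⟩ := h.r3 i hk
    rw [hk, ind_f n03.symm, ind_f n13.symm, ind_f n23.symm, ind_t rfl, e1, e2]
    refine ⟨by simp, ?_, ?_, by norm_num⟩
    · have : -c i - (0 - 1) = -(c i - 1) := by ring
      rw [this, abs_neg]; exact h1
    · have : s i ^ 2 - (-c i) ^ 2 - (0 + 0 - 0 - 1) = 2 * s i ^ 2 := by nlinarith
      rw [this, hsq]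

theorem t_MB : S_MB := by
  intro n x y k c s hn h hR1 hR2 hQ κ
  have hn0 : (0 : ℝ) < n := by exact_mod_cast hn
  have hp := point h
  -- sum of the |s|
  have hS : ∑ i, |s i| ≤ 5 / 10 ^ 4 * (n : ℝ) := by
    have hcs := sq_sum_le_card_mul_sum_sq (s := (univ : Finset (Fin n))) (f := fun i => |s i|)
    rw [card_univ, Fintype.card_fin] at hcs
    have e : ∑ i, |s i| ^ 2 = Q s := by unfold Q; simp only [sq_abs]
    rw [e] at hcs
    have h1 : (∑ i, |s i|) ^ 2 ≤ (5 / 10 ^ 4 * (n : ℝ)) ^ 2 := by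
      refine hcs.trans ?_
      have : (n : ℝ) * Q s ≤ n * (25 * dl * n) := mul_le_mul_of_nonneg_left hQ hn0.le
      unfold dl at this
      nlinarith
    exact le_of_sq_le_sq h1 (by positivity)
  have hx : |∑ i, x i - (N k 0 - N k 2)| ≤ ∑ i, |s i| := by
    unfold N
    rw [← sum_sub_distrib, ← sum_sub_distrib]
    exact (abs_sum_le_sum_abs _ _).trans (sum_le_sum fun i _ => (hp i).1)
  have hy : |∑ i, y i - (N k 1 - N k 3)| ≤ ∑ i, |s i| := by
    unfold N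
    rw [← sum_sub_distrib, ← sum_sub_distrib]
    exact (abs_sum_le_sum_abs _ _).trans (sum_le_sum fun i _ => (hp i).2.1)
  have hz : |∑ i, (x i ^ 2 - y i ^ 2) - (N k 0 + N k 2 - N k 1 - N k 3)| ≤ 2 * Q s := by
    unfold N Q
    rw [← sum_add_distrib, ← sum_sub_distrib, ← sum_sub_distrib, ← sum_sub_distrib, mul_sum]
    exact (abs_sum_le_sum_abs _ _).trans (sum_le_sum fun i _ => (hp i).2.2.1)
  have hN : N k 0 + N k 1 + N k 2 + N k 3 = n := by
    unfold N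
    rw [← sum_add_distrib, ← sum_add_distrib, ← sum_add_distrib]
    rw [sum_congr rfl fun i _ => (hp i).2.2.2]
    simp
  have hX : |∑ i, x i| ≤ 17321 / 10 ^ 8 * n := by
    refine abs_le_of_sq_le_sq ?_ (by positivity)
    unfold R1 dl at hR1
    nlinarith [sq_nonneg (∑ i, y i), mul_pos hn0 hn0]
  have hY : |∑ i, y i| ≤ 17321 / 10 ^ 8 * n := by
    refine abs_le_of_sq_le_sq ?_ (by positivity)
    unfold R1 dl at hR1
    nlinarith [sq_nonneg (∑ i, x i), mul_pos hn0 hn0]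
  have hZ : |∑ i, (x i ^ 2 - y i ^ 2)| ≤ 34642 / 10 ^ 8 * n := by
    refine abs_le_of_sq_le_sq ?_ (by positivity)
    unfold R2 dl at hR2
    nlinarith [sq_nonneg (∑ i, 2 * x i * y i), mul_pos hn0 hn0]
  unfold dl at hQ
  rw [abs_le] at hx hy hz hX hY hZ ⊢
  obtain ⟨hx1, hx2⟩ := hx
  obtain ⟨hy1, hy2⟩ := hy
  obtain ⟨hz1, hz2⟩ := hz
  obtain ⟨hX1, hX2⟩ := hX
  obtain ⟨hY1, hY2⟩ := hY
  obtain ⟨hZ1, hZ2⟩ := hZ
  rcases z4 κ with hk | hk | hk | hk <;> rw [hk] <;> constructor <;> linarith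

end Pool.Agent.TH106.KM
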